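import Pool.Agent.Lib.MP_dc6d97_lcG61.Tree
import Pool.Agent.Lib.MP_dc6d97_lc.Count

/-!
# Sums over the guesses
-/

set_option autoImplicit false

namespace PathColG

open PathCol (Load Proper used Meet Ok req req_append take_snoc Prop2 Cons Gs ext shift ind)
open MeasureTheory

/-- The sum of `F` over the concatenations of `M` shifted sequences. -/
noncomputable def sumB (L : List (ℕ × ℕ) → Prop) (c N S : ℕ) : ℕ → ℕ → (List (ℕ × ℕ) → ℝ) → ℝ
  | 0, _, F => F []
  | M + 1, k, F => ∑ g : Gs N c, sumB L c N S M (k + 1)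
      (fun τ => F ((sq L c N g).map (shift (k * S)) ++ τ))

variable {L : List (ℕ × ℕ) → Prop} {c N S : ℕ}

theorem sumB_mono : ∀ {M k : ℕ} {F F' : List (ℕ × ℕ) → ℝ}, (∀ τ, F τ ≤ F' τ) →
    sumB L c N S M k F ≤ sumB L c N S M k F'
  | 0, _, _, _, h => h []
  | _ + 1, _, _, _, h => Finset.sum_le_sum fun _ _ => sumB_mono fun _ => h _

theorem sumB_zero : ∀ {M k : ℕ} {F : List (ℕ × ℕ) → ℝ}, (∀ τ, F τ = 0) →
    sumB L c N S M k F = 0
  | 0, _, _, h => h []
  | _ + 1, _, _, h => Finset.sum_eq_zero fun _ _ => sumB_zero fun _ => h _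

theorem sumB_lower : ∀ {M k : ℕ} {F : List (ℕ × ℕ) → ℝ} {y : ℝ},
    (∀ τ, Bd L c N S M k τ → y ≤ F τ) →
    (Fintype.card (Gs N c) : ℝ) ^ M * y ≤ sumB L c N S M k F
  | 0, k, F, y, h => by
    rw [pow_zero, one_mul]
    exact h [] rfl
  | M + 1, k, F, y, h => by
    rw [sumB, pow_succ', mul_assoc, ← nsmul_eq_mul, ← Finset.card_univ]
    refine Finset.card_nsmul_le_sum _ _ _ fun g _ => ?_
    exact sumB_lower fun τ hτ => h _ ⟨g, τ, hτ, rfl⟩

theorem sumB_integral {Ω : Type} [MeasurableSpace Ω] {μ : Measure Ω} :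
    ∀ {M k : ℕ} {F : List (ℕ × ℕ) → Ω → ℝ}, (∀ τ, Integrable (F τ) μ) →
    Integrable (fun ω => sumB L c N S M k fun τ => F τ ω) μ ∧
      ∫ ω, sumB L c N S M k (fun τ => F τ ω) ∂μ = sumB L c N S M k fun τ => ∫ ω, F τ ω ∂μ
  | 0, _, F, h => ⟨h [], rfl⟩
  | M + 1, k, F, h => by
    have ih : ∀ g : Gs N c, _ := fun g => sumB_integral
      (M := M) (k := k + 1) (F := fun τ => F ((sq L c N g).map (shift (k * S)) ++ τ))
      fun τ => h _
    refine ⟨?_, ?_⟩
    · exact integrable_finsetSum _ fun g _ => (ih g).1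
    · show ∫ ω, ∑ g : Gs N c, sumB L c N S M (k + 1)
        (fun τ => F ((sq L c N g).map (shift (k * S)) ++ τ) ω) ∂μ = _
      rw [integral_finsetSum _ fun g _ => (ih g).1, sumB]
      exact Finset.sum_congr rfl fun g _ => (ih g).2

/-- For a fixed algorithm at most `(|G| - 1)^M` guesses never match. -/
theorem sumB_upper (hW : W L c N []) {b : List (ℕ × ℕ) → ℕ} (hb : Prop2 b) :
    ∀ {M k : ℕ} (h : List (ℕ × ℕ)),
      sumB L c N S M k (ind c b h) ≤ ((Fintype.card (Gs N c) : ℝ) - 1) ^ M
  | 0, k, h => by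
    rw [pow_zero, sumB, ind]
    split_ifs <;> norm_num
  | M + 1, k, h => by
    classical
    obtain ⟨g0, u, p, h1, h2⟩ := exists_guess hW (hb.shift h (k * S))
    have hz : sumB L c N S M (k + 1)
        (fun τ => ind c b h ((sq L c N g0).map (shift (k * S)) ++ τ)) = 0 := by
      refine sumB_zero fun τ => ?_
      rw [ind, if_neg]
      intro hcon
      have h3 := hcon (u.map (shift (k * S))) (shift (k * S) p) (by
        have h4 : u.map (shift (k * S)) ++ [shift (k * S) p] = (u ++ [p]).map (shift (k * S)) := by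
          simp
        rw [h4]
        exact (h1.map _).trans (List.prefix_append _ _))
      have h5 : u.map (shift (k * S)) ++ [shift (k * S) p] = (u ++ [p]).map (shift (k * S)) := by
        simp
      rw [h5] at h3
      exact absurd h2 (not_le.2 h3)
    have ho : ∀ g : Gs N c, sumB L c N S M (k + 1)
        (fun τ => ind c b h ((sq L c N g).map (shift (k * S)) ++ τ)) ≤
          ((Fintype.card (Gs N c) : ℝ) - 1) ^ M := by
      intro g
      refine le_trans (sumB_mono fun τ => ?_)
        (sumB_upper hW hb (h ++ (sq L c N g).map (shift (k * S))))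
      unfold ind
      split_ifs with h3 h4
      · exact le_refl _
      · exfalso
        refine h4 fun u p hu => ?_
        have h5 := h3 ((sq L c N g).map (shift (k * S)) ++ u) p (by
          rw [List.append_assoc]
          exact (List.prefix_append_right_inj _).2 hu)
        simpa [List.append_assoc] using h5
      · norm_num
      · exact le_refl _
    set t : Gs N c → ℝ := fun g => sumB L c N S M (k + 1)
        (fun τ => ind c b h ((sq L c N g).map (shift (k * S)) ++ τ)) with ht
    have hz' : t g0 = 0 := hz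
    show ∑ g, t g ≤ _
    rw [← Finset.sum_erase Finset.univ hz', pow_succ']
    refine (Finset.sum_le_card_nsmul _ _ _ fun g _ => ho g).trans (le_of_eq ?_)
    rw [Finset.card_erase_of_mem (Finset.mem_univ _), Finset.card_univ, nsmul_eq_mul,
      Nat.cast_sub (Fintype.card_pos), Nat.cast_one]

end PathColG
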