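import Pool.Agent.Lib.MP_dc6d97_lc.Label

/-!
# On-line coloring of intervals: families of request sequences
-/

set_option autoImplicit false

namespace PathColG

/-- A family of request sequences which is closed under prefixes, translations and juxtaposition. -/
structure Family (F : List (ℕ × ℕ) → Prop) : Prop where
  nil : F []
  pre : ∀ σ τ, F (σ ++ τ) → F σ
  sh : ∀ σ s, F σ → F (σ.map fun p => (p.1 + s, p.2))
  jx : ∀ σ τ, F σ → F τ → (∀ p ∈ σ, ∀ q ∈ τ, p.1 + p.2 < q.1) → F (σ ++ τ)

end PathColG
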