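import Pool.Agent.Lib.MP_dc6d97_lcG61.Tail
import Pool.Agent.Lib.MP_dc6d97_lc.Main

/-!
# From the expectation to the probability
-/

set_option autoImplicit false

namespace PathColG

open PathCol (Load Proper used measurableSet_used measurable_used used_le)
open MeasureTheory

theorem markov {Ω : Type} [MeasurableSpace Ω] {μ : Measure Ω} (hμ : IsProbabilityMeasure μ)
    {A : List (ℕ × ℕ) → Ω → ℕ} (hm : ∀ s, Measurable (A s)) (σ : List (ℕ × ℕ)) (c : ℕ) (B : ℝ)
    (hB : ∫ ω, (used (fun s => A s ω) σ : ℝ) ∂μ ≤ B) :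
    1 - B / (c + 1) ≤ μ.real {ω | used (fun s => A s ω) σ ≤ c} := by
  classical
  have hc1 : (0 : ℝ) < c + 1 := by positivity
  have hUi : Integrable (fun ω => (used (fun s => A s ω) σ : ℝ)) μ := by
    refine Integrable.of_bound ((measurable_from_top.comp (measurable_used hm σ) :
      Measurable fun ω => ((used (fun s => A s ω) σ : ℕ) : ℝ)).aestronglyMeasurable) σ.length
      (Filter.Eventually.of_forall fun ω => ?_)
    rw [Real.norm_of_nonneg (Nat.cast_nonneg _)]
    exact_mod_cast used_le _ σ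
  have hFi : Integrable ({ω | used (fun s => A s ω) σ ≤ c}.indicator (1 : Ω → ℝ)) μ :=
    (integrable_const (1 : ℝ)).indicator (measurableSet_used hm c σ)
  have h1 : ∫ ω, ((c : ℝ) + 1) * (1 - {ω | used (fun s => A s ω) σ ≤ c}.indicator (1 : Ω → ℝ) ω) ∂μ
      ≤ ∫ ω, (used (fun s => A s ω) σ : ℝ) ∂μ := by
    refine integral_mono (((integrable_const _).sub hFi).const_mul _) hUi fun ω => ?_
    by_cases h2 : used (fun s => A s ω) σ ≤ c
    · simp [h2]
    · have h3 : ((c + 1 : ℕ) : ℝ) ≤ (used (fun s => A s ω) σ : ℝ) := by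
        exact_mod_cast (not_le.1 h2)
      push_cast at h3
      simpa [h2] using h3
  have h2 : ∫ ω, ((c : ℝ) + 1) * (1 - {ω | used (fun s => A s ω) σ ≤ c}.indicator (1 : Ω → ℝ) ω) ∂μ
      = (c + 1) * (1 - μ.real {ω | used (fun s => A s ω) σ ≤ c}) := by
    rw [integral_const_mul, integral_sub (integrable_const _) hFi,
      integral_indicator_one (measurableSet_used hm c σ)]
    simp
  rw [h2] at h1
  have h4 := h1.trans hB
  have h5 : 1 - μ.real {ω | used (fun s => A s ω) σ ≤ c} ≤ B / (c + 1) := by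
    rw [le_div_iff₀ hc1, mul_comm]
    exact h4
  linarith

/-- Deterministic algorithms, expectations and probabilities for a family of sequences. -/
theorem family_tfae (F : List (ℕ × ℕ) → Prop) (hF : Family F) (c : ℕ) : [
    ∃ a : List (ℕ × ℕ) → ℕ, Proper a ∧ ∀ σ, F σ → used a σ ≤ c,
    ∃ B : ℝ, B < c + 1 ∧ ∃ (Ω : Type) (_ : MeasurableSpace Ω) (μ : Measure Ω)
      (A : List (ℕ × ℕ) → Ω → ℕ), IsProbabilityMeasure μ ∧ (∀ s, Measurable (A s)) ∧
        (∀ ω, Proper fun s => A s ω) ∧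
        ∀ σ, F σ → ∫ ω, (used (fun s => A s ω) σ : ℝ) ∂μ ≤ B,
    ∃ ε : ℝ, 0 < ε ∧ ∃ (Ω : Type) (_ : MeasurableSpace Ω) (μ : Measure Ω)
      (A : List (ℕ × ℕ) → Ω → ℕ), IsProbabilityMeasure μ ∧ (∀ s, Measurable (A s)) ∧
        (∀ ω, Proper fun s => A s ω) ∧
        ∀ σ, F σ → ε ≤ μ.real {ω | used (fun s => A s ω) σ ≤ c}].TFAE := by
  tfae_have 1 → 2 := by
    rintro ⟨a, ha, h⟩
    refine ⟨c, by linarith, Unit, inferInstance, Measure.dirac (), fun s _ => a s,
      Measure.dirac.isProbabilityMeasure, fun s => measurable_const, fun _ => ha, fun σ hσ => ?_⟩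
    rw [integral_const]
    have h1 : (used a σ : ℝ) ≤ c := by exact_mod_cast h σ hσ
    simpa using h1
  tfae_have 2 → 3 := by
    rintro ⟨B, hB, Ω, i, μ, A, h1, h2, h3, h4⟩
    have hc1 : (0 : ℝ) < c + 1 := by positivity
    refine ⟨1 - B / (c + 1), ?_, Ω, i, μ, A, h1, h2, h3, fun σ hσ => markov h1 h2 σ c B (h4 σ hσ)⟩
    rw [sub_pos, div_lt_one hc1]
    exact hB
  tfae_have 3 → 1 := by
    rintro ⟨ε, hε, Ω, _, μ, A, h1, h2, h3, h4⟩
    exact derandomize_tail F hF c ε hε Ω μ A h1 h2 h3 h4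
  tfae_finish

theorem family_load (L : ℕ) : Family (Load L) := by
  constructor
  · intro x
    simp
  · intro σ τ h x
    have h1 := h x
    rw [List.countP_append] at h1
    omega
  · intro σ s h x
    rw [List.countP_map]
    by_cases hx : s ≤ x
    · have h1 := h (x - s)
      refine le_trans (List.countP_mono_left fun p _ hp => ?_) h1
      simp only [Function.comp, decide_eq_true_eq] at hp ⊢
      omega
    · refine le_trans (le_of_eq ?_) (Nat.zero_le L)
      rw [List.countP_eq_zero]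
      intro p _ hp
      have hp' := of_decide_eq_true hp
      obtain ⟨hp1, hp2⟩ := hp'
      have hp3 : p.1 + s ≤ x := hp1
      omega
  · intro σ τ h1 h2 h x
    rw [List.countP_append]
    by_cases h3 : List.countP (fun p => decide (p.1 ≤ x ∧ x ≤ p.1 + p.2)) σ = 0
    · have := h2 x
      omega
    · have h4 := h1 x
      have h5 : List.countP (fun p => decide (p.1 ≤ x ∧ x ≤ p.1 + p.2)) τ = 0 := by
        rw [List.countP_eq_zero]
        intro q hq hq'
        obtain ⟨p, hp, hp'⟩ := List.countP_pos_iff.1 (Nat.pos_of_ne_zero h3)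
        simp only [decide_eq_true_eq] at hq' hp'
        have := h p hp q hq
        omega
      omega

theorem Family.lengths {F : List (ℕ × ℕ) → Prop} (hF : Family F) (D : Set ℕ) :
    Family fun σ => F σ ∧ ∀ p ∈ σ, p.2 ∈ D := by
  refine ⟨⟨hF.nil, fun p hp => by simp at hp⟩, fun σ τ h => ⟨hF.pre σ τ h.1, fun p hp =>
    h.2 p (List.mem_append.2 (Or.inl hp))⟩, fun σ s h => ⟨hF.sh σ s h.1, fun p hp => ?_⟩,
    fun σ τ h1 h2 h => ⟨hF.jx σ τ h1.1 h2.1 h, fun p hp => ?_⟩⟩
  · obtain ⟨q, hq, rfl⟩ := List.mem_map.1 hp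
    exact h.2 q hq
  · rcases List.mem_append.1 hp with hp | hp
    · exact h1.2 p hp
    · exact h2.2 p hp

end PathColG
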