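import Pool.Agent.Lib.MP_dc6d97_lcG61.Defs

/-!
# The coloring game with `c` colors
-/

set_option autoImplicit false

namespace PathColG

open PathCol (Load Proper used Meet Ok req req_append take_snoc)

/-- The adversary wins in at most `n` moves against a painter with `c` colors. -/
def W (L : List (ℕ × ℕ) → Prop) (c : ℕ) : ℕ → List ((ℕ × ℕ) × ℕ) → Prop
  | 0, _ => False
  | n + 1, pos => ∃ p, L (req pos ++ [p]) ∧ ∀ x < c, Ok pos p x → W L c n (pos ++ [(p, x)])

theorem W.succ {L : List (ℕ × ℕ) → Prop} {c : ℕ} : ∀ {n : ℕ} {pos : List ((ℕ × ℕ) × ℕ)}, W L c n pos → W L c (n + 1) pos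
  | 0, _, h => h.elim
  | _ + 1, _, ⟨p, h1, h2⟩ => ⟨p, h1, fun x hx ho => (h2 x hx ho).succ⟩

theorem W.mono {L : List (ℕ × ℕ) → Prop} {c m n : ℕ} {pos : List ((ℕ × ℕ) × ℕ)} (h : W L c m pos) (hmn : m ≤ n) :
    W L c n pos := by
  induction hmn with
  | refl => exact h
  | step _ ih => exact ih.succ

/-- The position is safe for the painter. -/
def Safe (L : List (ℕ × ℕ) → Prop) (c : ℕ) (pos : List ((ℕ × ℕ) × ℕ)) : Prop := ∀ n, ¬ W L c n pos

theorem Safe.exists_color {L : List (ℕ × ℕ) → Prop} {c : ℕ} {pos : List ((ℕ × ℕ) × ℕ)} (h : Safe L c pos) {p : ℕ × ℕ}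
    (hp : L (req pos ++ [p])) : ∃ x, x < c ∧ Ok pos p x ∧ Safe L c (pos ++ [(p, x)]) := by
  classical
  by_contra hcon
  have h1 : ∀ x, ∃ n, x < c → Ok pos p x → W L c n (pos ++ [(p, x)]) := by
    intro x
    by_cases hx : x < c
    · by_cases ho : Ok pos p x
      · have : ¬ Safe L c (pos ++ [(p, x)]) := fun hs => hcon ⟨x, hx, ho, hs⟩
        unfold Safe at this
        push Not at this
        obtain ⟨n, hn⟩ := this
        exact ⟨n, fun _ _ => hn⟩
      · exact ⟨0, fun _ h => absurd h ho⟩
    · exact ⟨0, fun h => absurd h hx⟩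
  choose n hn using h1
  refine h ((Finset.range c).sup n + 1) ⟨p, hp, fun x hx ho => ?_⟩
  exact (hn x hx ho).mono (Finset.le_sup (Finset.mem_range.2 hx))

/-! ### The deterministic algorithm -/

open Classical in
/-- The color of the next request. -/
noncomputable def nextCol (L : List (ℕ × ℕ) → Prop) (c : ℕ) (pos : List ((ℕ × ℕ) × ℕ)) (p : ℕ × ℕ) : ℕ :=
  if h : ∃ x, x < c ∧ Ok pos p x ∧ Safe L c (pos ++ [(p, x)]) then h.choose else c + pos.length

/-- The position after a request sequence. -/
noncomputable def state (L : List (ℕ × ℕ) → Prop) (c : ℕ) (σ : List (ℕ × ℕ)) : List ((ℕ × ℕ) × ℕ) :=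
  σ.foldl (fun pos p => pos ++ [(p, nextCol L c pos p)]) []

theorem state_snoc (L : List (ℕ × ℕ) → Prop) (c : ℕ) (σ : List (ℕ × ℕ)) (p : ℕ × ℕ) :
    state L c (σ ++ [p]) = state L c σ ++ [(p, nextCol L c (state L c σ) p)] := by
  unfold state
  rw [List.foldl_append]
  rfl

theorem req_state (L : List (ℕ × ℕ) → Prop) (c : ℕ) (σ : List (ℕ × ℕ)) : req (state L c σ) = σ := by
  induction σ using List.reverseRecOn with
  | nil => rfl
  | append_singleton σ p ih => rw [state_snoc, req_append, ih]; rfl

theorem length_state (L : List (ℕ × ℕ) → Prop) (c : ℕ) (σ : List (ℕ × ℕ)) : (state L c σ).length = σ.length := by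
  have := congrArg List.length (req_state L c σ)
  rwa [req, List.length_map] at this

/-- The algorithm. -/
noncomputable def alg (L : List (ℕ × ℕ) → Prop) (c : ℕ) (σ : List (ℕ × ℕ)) : ℕ := ((state L c σ).getLast?.map Prod.snd).getD 0

theorem alg_snoc (L : List (ℕ × ℕ) → Prop) (c : ℕ) (σ : List (ℕ × ℕ)) (p : ℕ × ℕ) :
    alg L c (σ ++ [p]) = nextCol L c (state L c σ) p := by
  unfold alg
  rw [state_snoc]
  simp

theorem state_lt (L : List (ℕ × ℕ) → Prop) (c : ℕ) (σ : List (ℕ × ℕ)) : ∀ q ∈ state L c σ, q.2 < c + σ.length := by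
  induction σ using List.reverseRecOn with
  | nil => intro q hq; simp [state] at hq
  | append_singleton σ p ih =>
    intro q hq
    rw [state_snoc, List.mem_append, List.mem_singleton] at hq
    rw [List.length_append, List.length_singleton]
    rcases hq with hq | rfl
    · have := ih q hq; omega
    · show nextCol L c (state L c σ) p < _
      unfold nextCol
      split_ifs with h
      · have := h.choose_spec.1; omega
      · rw [length_state]; omega

theorem ok_next (L : List (ℕ × ℕ) → Prop) (c : ℕ) (σ : List (ℕ × ℕ)) (p : ℕ × ℕ) :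
    Ok (state L c σ) p (nextCol L c (state L c σ) p) := by
  unfold nextCol
  split_ifs with h
  · exact h.choose_spec.2.1
  · intro q hq _ he
    have := state_lt L c σ q hq
    rw [length_state] at he
    omega

theorem mem_state {L : List (ℕ × ℕ) → Prop} {c : ℕ} {σ : List (ℕ × ℕ)} {i : ℕ} (hi : i < σ.length) :
    (σ[i], alg L c (σ.take (i + 1))) ∈ state L c σ := by
  induction σ using List.reverseRecOn with
  | nil => simp at hi
  | append_singleton σ p ih =>
    rw [state_snoc, List.mem_append, List.mem_singleton]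
    rw [List.length_append, List.length_singleton] at hi
    rcases Nat.lt_or_ge i σ.length with h1 | h1
    · left
      have := ih h1
      rw [List.getElem_append_left h1, List.take_append_of_le_length (by omega)]
      exact this
    · right
      have h2 : i = σ.length := by omega
      subst h2
      rw [List.getElem_append_right (le_refl _)]
      have h3 : (σ ++ [p]).take (σ.length + 1) = σ ++ [p] :=
        List.take_of_length_le (by simp)
      rw [h3, alg_snoc]
      simp

theorem proper_alg (L : List (ℕ × ℕ) → Prop) (c : ℕ) : Proper (alg L c) := by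
  have key : ∀ (σ : List (ℕ × ℕ)) (i j : ℕ) (hi : i < σ.length) (hj : j < σ.length), i < j →
      Meet σ[i] σ[j] → alg L c (σ.take (i + 1)) ≠ alg L c (σ.take (j + 1)) := by
    intro σ i j hi hj hij hm
    rw [take_snoc hj, alg_snoc]
    have h1 : i < (σ.take j).length := by rw [List.length_take]; omega
    have h2 := mem_state (L := L) (c := c) h1
    have h3 := ok_next L c (σ.take j) σ[j] _ h2 (by
      rw [List.getElem_take]
      exact hm)
    rw [List.take_take, min_eq_left (by omega)] at h3
    exact h3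
  intro σ i j hi hj hne h1 h2
  rcases Nat.lt_or_gt_of_ne hne with h | h
  · exact key σ i j hi hj h ⟨h1, h2⟩
  · exact (key σ j i hj hi h ⟨h2, h1⟩).symm

theorem safe_state {L : List (ℕ × ℕ) → Prop} {c : ℕ} (hF : Family L) (h0 : Safe L c []) {σ : List (ℕ × ℕ)} (hσ : L σ) :
    Safe L c (state L c σ) ∧ ∀ q ∈ state L c σ, q.2 < c := by
  induction σ using List.reverseRecOn with
  | nil => exact ⟨h0, fun q hq => by simp [state] at hq⟩
  | append_singleton σ p ih =>
    obtain ⟨h1, h2⟩ := ih (hF.pre _ _ hσ)
    have h3 : ∃ x, x < c ∧ Ok (state L c σ) p x ∧ Safe L c (state L c σ ++ [(p, x)]) :=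
      h1.exists_color (by rw [req_state]; exact hσ)
    have h4 : nextCol L c (state L c σ) p < c ∧
        Safe L c (state L c σ ++ [(p, nextCol L c (state L c σ) p)]) := by
      unfold nextCol
      rw [dif_pos h3]
      exact ⟨h3.choose_spec.1, h3.choose_spec.2.2⟩
    rw [state_snoc]
    refine ⟨h4.2, fun q hq => ?_⟩
    rw [List.mem_append, List.mem_singleton] at hq
    rcases hq with hq | rfl
    · exact h2 q hq
    · exact h4.1

theorem used_alg {L : List (ℕ × ℕ) → Prop} {c : ℕ} (hF : Family L) (h0 : Safe L c []) {σ : List (ℕ × ℕ)} (hσ : L σ) :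
    used (alg L c) σ ≤ c := by
  unfold used
  have h1 : ((List.range σ.length).map (fun i => alg L c (σ.take (i + 1)))).toFinset ⊆
      Finset.range c := by
    intro x hx
    rw [List.mem_toFinset, List.mem_map] at hx
    obtain ⟨i, hi, rfl⟩ := hx
    rw [List.mem_range] at hi
    rw [Finset.mem_range]
    exact (safe_state hF h0 hσ).2 _ (mem_state hi)
  exact (Finset.card_le_card h1).trans (by simp)

end PathColG
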