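import Pool.Agent.Lib.MP_dc6d97_lcG61.Count
import Pool.Agent.Lib.MP_dc6d97_lc.Tail

/-!
# Exact derandomization for families of request sequences
-/

set_option autoImplicit false

namespace PathColG

open PathCol (Load Proper used Meet Ok req req_append take_snoc Prop2 Cons Gs ext shift ind
  measurableSet_used measurable_used used_le prop2_lab lab_lt)
open MeasureTheory

theorem derandomize_tail (L : List (ℕ × ℕ) → Prop) (hFam : Family L) (c : ℕ) (y : ℝ) (hy0 : 0 < y) (Ω : Type) [MeasurableSpace Ω]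
    (μ : Measure Ω) (A : List (ℕ × ℕ) → Ω → ℕ) (hμ : IsProbabilityMeasure μ)
    (hm : ∀ s, Measurable (A s)) (hp : ∀ ω, Proper fun s => A s ω)
    (hB : ∀ σ, L σ → y ≤ μ.real {ω | used (fun s => A s ω) σ ≤ c}) :
    ∃ a : List (ℕ × ℕ) → ℕ, Proper a ∧ ∀ σ, L σ → used a σ ≤ c := by
  classical
  by_cases h0 : Safe L c []
  · exact ⟨alg L c, proper_alg L c, fun σ hσ => used_alg hFam h0 hσ⟩
  exfalso
  unfold Safe at h0
  push Not at h0
  obtain ⟨N, hW⟩ := h0
  obtain ⟨S, hS⟩ := exists_bound L c N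
  -- the bad events
  set F : List (ℕ × ℕ) → Ω → ℝ := fun τ =>
    {ω | used (fun s => A s ω) τ ≤ c}.indicator 1 with hF
  have hFi : ∀ τ, Integrable (F τ) μ := fun τ =>
    (integrable_const (1 : ℝ)).indicator (measurableSet_used hm c τ)
  have hlow : ∀ τ, L τ → y ≤ ∫ ω, F τ ω ∂μ := by
    intro τ hτ
    rw [hF, integral_indicator_one (measurableSet_used hm c τ)]
    exact hB τ hτ
  -- the two estimates
  set K : ℝ := (Fintype.card (Gs N c) : ℝ) with hK
  have hK1 : 1 ≤ K := by
    rw [hK]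
    exact_mod_cast (Fintype.card_pos : 0 < Fintype.card (Gs N c))
  have hup : ∀ M : ℕ, K ^ M * y ≤ (K - 1) ^ M := by
    intro M
    have h1 : K ^ M * y ≤ sumB L c N S M 0 fun τ => ∫ ω, F τ ω ∂μ :=
      sumB_lower fun τ hτ => hlow τ (hτ.load hFam hS)
    obtain ⟨h2, h3⟩ := sumB_integral (L := L) (c := c) (N := N) (S := S) (M := M) (k := 0) hFi
    rw [← h3] at h1
    refine h1.trans ?_
    have h4 : ∫ ω, sumB L c N S M 0 (fun τ => F τ ω) ∂μ ≤ ∫ _, (K - 1) ^ M ∂μ := by
      refine integral_mono h2 (integrable_const _) fun ω => ?_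
      refine le_trans (sumB_mono fun τ => ?_) (sumB_upper (S := S) hW (prop2_lab (hp ω)) (k := 0) [])
      simp only [hF]
      by_cases h5 : used (fun s => A s ω) τ ≤ c
      · rw [Set.indicator_of_mem (show ω ∈ {ω | used (fun s => A s ω) τ ≤ c} from h5), ind, if_pos]
        · rfl
        · intro u p hu
          exact (lab_lt hu).trans_le h5
      · rw [Set.indicator_of_notMem (show ω ∉ {ω | used (fun s => A s ω) τ ≤ c} from h5), ind]
        split_ifs <;> norm_num
    refine h4.trans (le_of_eq ?_)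
    simp
  have hlim : Filter.Tendsto (fun M : ℕ => ((K - 1) / K) ^ M) Filter.atTop (nhds 0) := by
    refine tendsto_pow_atTop_nhds_zero_of_lt_one (div_nonneg (by linarith) (by linarith)) ?_
    rw [div_lt_one (by linarith)]
    linarith
  obtain ⟨M, hM⟩ := ((tendsto_order.1 hlim).2 y hy0).exists
  have h1 := hup M
  have hKM : 0 < K ^ M := pow_pos (by linarith) M
  rw [div_pow, div_lt_iff₀ hKM] at hM
  linarith

end PathColG
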