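import Pool.Agent.Lib.MP_dc6d97_lcG61.Game

/-!
# The finite strategy tree of the adversary
-/

set_option autoImplicit false

namespace PathColG

open PathCol (Load Proper used Meet Ok req req_append take_snoc Prop2 Cons Gs ext shift)

open Classical in
/-- The requests of the adversary when he guesses the answers `g 0, g 1, ...`. -/
noncomputable def seq (L : List (ℕ × ℕ) → Prop) (c : ℕ) : ℕ → List ((ℕ × ℕ) × ℕ) → (ℕ → ℕ) → List (ℕ × ℕ)
  | 0, _, _ => []
  | n + 1, pos, g =>
    if h : ∃ p, L (req pos ++ [p]) ∧ ∀ x < c, Ok pos p x → W L c n (pos ++ [(p, x)]) then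
      h.choose :: seq L c n (pos ++ [(h.choose, g 0)]) (fun i => g (i + 1))
    else []

theorem seq_congr {L : List (ℕ × ℕ) → Prop} {c : ℕ} : ∀ {n : ℕ} {pos : List ((ℕ × ℕ) × ℕ)} {g g' : ℕ → ℕ},
    (∀ i < n, g i = g' i) → seq L c n pos g = seq L c n pos g'
  | 0, _, _, _, _ => rfl
  | n + 1, pos, g, g', h => by
    rw [seq, seq, h 0 (by omega)]
    split_ifs with h1
    · rw [seq_congr (n := n) fun i hi => h (i + 1) (by omega)]
    · rfl

theorem load_seq {L : List (ℕ × ℕ) → Prop} {c : ℕ} : ∀ {n : ℕ} {pos : List ((ℕ × ℕ) × ℕ)} {g : ℕ → ℕ},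
    L (req pos) → L (req pos ++ seq L c n pos g)
  | 0, pos, g, h => by rw [seq, List.append_nil]; exact h
  | n + 1, pos, g, h => by
    rw [seq]
    split_ifs with h1
    · have h2 := load_seq (L := L) (c := c) (n := n) (pos := pos ++ [(h1.choose, g 0)])
        (g := fun i => g (i + 1)) (by rw [req_append]; exact h1.choose_spec.1)
      rw [req_append, List.append_assoc] at h2
      exact h2
    · rw [List.append_nil]; exact h

/-- For a suitable guess the algorithm uses a color `≥ c`. -/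
theorem exists_match {L : List (ℕ × ℕ) → Prop} {c : ℕ} {b : List (ℕ × ℕ) → ℕ} (hb : Prop2 b) :
    ∀ {n : ℕ} {pos : List ((ℕ × ℕ) × ℕ)}, Cons b pos → W L c n pos →
      ∃ g : ℕ → ℕ, (∀ i, g i ≤ c) ∧ ∃ u p, (u ++ [p]) <+: seq L c n pos g ∧
        c ≤ b (req pos ++ (u ++ [p]))
  | 0, _, _, h => h.elim
  | n + 1, pos, hc, h => by
    have h' : ∃ p, L (req pos ++ [p]) ∧ ∀ x < c, Ok pos p x → W L c n (pos ++ [(p, x)]) := h
    set p := h'.choose with hp
    have hps := h'.choose_spec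
    rw [← hp] at hps
    have hseq : ∀ g : ℕ → ℕ, seq L c (n + 1) pos g =
        p :: seq L c n (pos ++ [(p, g 0)]) (fun i => g (i + 1)) := by
      intro g
      rw [seq, dif_pos h']
    by_cases hy : b (req pos ++ [p]) < c
    · obtain ⟨g, hg, u, q, h1, h2⟩ := exists_match (L := L) hb (hc.snoc p)
        (hps.2 _ hy (hc.ok hb p))
      refine ⟨fun i => Nat.casesOn i (b (req pos ++ [p])) g, fun i => ?_, p :: u, q, ?_, ?_⟩
      · cases i with
        | zero => exact hy.le
        | succ i => exact hg i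
      · rw [hseq]
        show p :: (u ++ [q]) <+: p :: _
        exact (List.prefix_cons_inj p).2 h1
      · have h3 : req pos ++ ((p :: u) ++ [q]) =
            req (pos ++ [(p, b (req pos ++ [p]))]) ++ (u ++ [q]) := by
          rw [req_append]; simp [req]
        rw [h3]
        exact h2
    · refine ⟨fun _ => 0, fun _ => Nat.zero_le _, [], p, ?_, ?_⟩
      · rw [hseq]
        exact ⟨_, rfl⟩
      · push Not at hy
        exact hy

/-- The requests of a guess. -/
noncomputable def sq (L : List (ℕ × ℕ) → Prop) (c N : ℕ) (g : Gs N c) : List (ℕ × ℕ) := seq L c N [] (ext g)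

theorem load_sq (L : List (ℕ × ℕ) → Prop) (hF : Family L) (c N : ℕ) (g : Gs N c) : L (sq L c N g) := by
  have h := load_seq (L := L) (c := c) (n := N) (pos := []) (g := ext g) hF.nil
  unfold sq
  simpa [req] using h

theorem exists_guess {L : List (ℕ × ℕ) → Prop} {c N : ℕ} (hW : W L c N []) {b : List (ℕ × ℕ) → ℕ} (hb : Prop2 b) :
    ∃ g : Gs N c, ∃ u p, (u ++ [p]) <+: sq L c N g ∧ c ≤ b (u ++ [p]) := by
  obtain ⟨g, hg, u, p, h1, h2⟩ := exists_match hb (pos := []) (fun u x v h => by simp at h) hW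
  refine ⟨fun i => ⟨g i, Nat.lt_succ_of_le (hg i)⟩, u, p, ?_, ?_⟩
  · unfold sq
    rw [seq_congr (g' := g) fun i hi => by rw [ext, dif_pos hi]]
    exact h1
  · simpa [req] using h2

/-- A bound for the end points. -/
theorem exists_bound (L : List (ℕ × ℕ) → Prop) (c N : ℕ) : ∃ S, ∀ g : Gs N c, ∀ p ∈ sq L c N g, p.1 + p.2 < S := by
  have h1 : ∀ g : Gs N c, ∃ S, ∀ p ∈ sq L c N g, p.1 + p.2 < S := by
    intro g
    induction sq L c N g with
    | nil => exact ⟨0, by simp⟩
    | cons p l ih =>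
      obtain ⟨S, hS⟩ := ih
      refine ⟨S + (p.1 + p.2 + 1), fun q hq => ?_⟩
      rcases List.mem_cons.1 hq with rfl | hq
      · omega
      · have := hS q hq; omega
  choose S hS using h1
  refine ⟨Finset.univ.sup S, fun g p hp => (hS g p hp).trans_le ?_⟩
  exact Finset.le_sup (Finset.mem_univ g)

/-- The concatenations of shifted sequences. -/
def Bd (L : List (ℕ × ℕ) → Prop) (c N S : ℕ) : ℕ → ℕ → List (ℕ × ℕ) → Prop
  | 0, _, τ => τ = []
  | M + 1, k, τ => ∃ (g : Gs N c) (τ' : List (ℕ × ℕ)), Bd L c N S M (k + 1) τ' ∧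
      τ = (sq L c N g).map (shift (k * S)) ++ τ'

theorem Bd.ge {L : List (ℕ × ℕ) → Prop} {c N S : ℕ} : ∀ {M k : ℕ} {τ : List (ℕ × ℕ)}, Bd L c N S M k τ →
    ∀ p ∈ τ, k * S ≤ p.1
  | 0, _, _, h, p, hp => by
    have h' : _ = [] := h
    rw [h'] at hp
    simp at hp
  | M + 1, k, _, ⟨g, τ', h1, rfl⟩, p, hp => by
    rcases List.mem_append.1 hp with hp | hp
    · obtain ⟨q, _, rfl⟩ := List.mem_map.1 hp
      exact Nat.le_add_left _ _
    · exact (Nat.mul_le_mul_right S (Nat.le_succ k)).trans (h1.ge p hp)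

theorem Bd.load {L : List (ℕ × ℕ) → Prop} {c N S : ℕ} (hF : Family L)
    (hS : ∀ g : Gs N c, ∀ p ∈ sq L c N g, p.1 + p.2 < S) :
    ∀ {M k : ℕ} {τ : List (ℕ × ℕ)}, Bd L c N S M k τ → L τ
  | 0, _, _, h => by
    have h' : _ = [] := h
    rw [h']
    exact hF.nil
  | M + 1, k, _, ⟨g, τ', h1, rfl⟩ => by
    refine hF.jx _ _ (hF.sh _ (k * S) (load_sq L hF c N g)) (h1.load hF hS) ?_
    intro p hp q hq
    obtain ⟨p', hp', rfl⟩ := List.mem_map.1 hp
    have h2 := h1.ge q hq
    have h3 := hS g p' hp'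
    have h6 : (k + 1) * S = k * S + S := by ring
    rw [h6] at h2
    show p'.1 + k * S + p'.2 < q.1
    omega

end PathColG
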